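import Pool.Agent.AAU.MainB

/-!
# Even Galois representations at almost all primes, uniform in the level and the weight

`Gam` is the absolute Galois group of `ℚ` with the Krull topology, `AI` the ring of all algebraic
integers; the definitions of the statement are in `Pool/Agent/AAP/Stmt.lean`, `Stmt2.lean`,
`Pool/Agent/EDV/Defs.lean` and `Pool/Agent/AAU/DefsP.lean`.

There are a constant `C` and for all `N, n ≥ 1` a set `P N n` of at most `C N ^ C n` primes such that
the following is true for all primes `p` not in `P N n`: let `E` be a complete ultrametric field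
over `ℚ_[p]` and `V : Gam → GL₂(E)` continuous and even (`det V(c) = 1` for all complex
conjugations). Assume

* `n ≥ 2` and `ReducibleType`: the semisimple reduction of `V` is `ω ^ j ⊗ (α ⊕ β ω ^ n)` with
  characters `α`, `β` modulo `N`, and at the primes `ℓ` not dividing `N p` with
  `β(ℓ) ℓ ^ (n - 1) ≡ α(ℓ)` inertia acts on `V` with finite order prime to `p` (no condition at all
  other primes), or
* `n = 1` and `ReducibleB`: the semisimple reduction is `ω ^ j ⊗ (α ⊕ β ω)`, and at every prime `ℓ`,
  including those dividing `N p`, either `ℓ ≠ p` and inertia acts with finite order prime to `p`, or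
  `ℓ = p` and the number fields `M` cut out by the reductions of the stable lattices satisfy Fontaine's
  bound `v_p(d_M) < [M : ℚ] p / (p - 1)` (this is true for Barsotti-Tate representations and their
  twists by powers of `ω`), or `β ≢ α` on the decomposition group of `ℓ`, or
* `DihType`, `FLType`: the reduction of `V` is induced from a character `χ` of the Galois group of a
  quadratic field `ℚ(√D)`, `D ∣ N`, with `χ ^ N` unramified outside `p`, and it is of
  Fontaine-Laffaille type with weights `0` and `n` at `p`.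

Then `V` is reducible. For all `ε > 0` there is a `c > 0` so that 100 percent of the primes `p` are in
no `P N n` with `N ≤ p ^ c` and `n ≤ p ^ (1 / 2 - ε)`, and 100 percent of the pairs `(p, n)` with
`n ≤ p ^ (1 - ε)` have `p` in no `P N n` with `N ≤ p ^ c` (with a power of `X` saved in the number of
exceptions up to `X`).
-/

namespace Pool.Agent.Results.MP_b583a4_nt.AlmostAllPrimes

open Pool.Agent.AAP Pool.Agent.AAU

theorem result :
    ∃ (C : ℕ) (P : ℕ → ℕ → Finset ℕ), (∀ N n, (P N n).card ≤ C * N ^ C * n) ∧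
      (∀ m, ∃ k, ∀ X : ℕ, {p : ℕ | p ≤ X ∧ ∃ N n, 1 ≤ N ∧ 1 ≤ n ∧ N ^ k ≤ p ∧
        n ^ (2 * m + 1) ≤ p ^ m ∧ p ∈ P N n}.ncard ^ (4 * m + 2) ≤ k * X ^ (4 * m + 1)) ∧
      (∀ m, ∃ k, ∀ X : ℕ, {x : ℕ × ℕ | x.1 ≤ X ∧ x.2 ^ (m + 1) ≤ x.1 ^ m ∧
        ∃ N, 1 ≤ N ∧ N ^ k ≤ x.1 ∧ x.1 ∈ P N x.2}.ncard ^ (2 * m + 2) ≤ k * X ^ (4 * m + 1)) ∧
      ∀ N n, 1 ≤ N → 1 ≤ n → ∀ (p : ℕ) [Fact p.Prime], p ∉ P N n →
        ∀ (E : Type) [NormedField E] [IsUltrametricDist E] [CompleteSpace E] [NormedAlgebra ℚ_[p] E]
          (V : Gam →* GL2 E), Continuous V → Even2 V →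
            ((2 ≤ n ∧ ReducibleType p n N V) ∨ (n = 1 ∧ ReducibleB p N V) ∨
              (DihType p N V ∧ FLType p n V)) → Line V :=
  mainB

end Pool.Agent.Results.MP_b583a4_nt.AlmostAllPrimes
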