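import Pool.Agent.EDV.LimT
import Pool.Agent.EDV.DivM3
import Pool.Agent.AAP.CritHalf

/-!
# Even two-dimensional Galois representations: accumulation and divisibility

Let `p` be an odd prime. (1) Fix a finite set `S` of primes containing `p` and a field `E`. Up to
twist, irreducible even representations which are tame outside `S` accumulate only at finitely many
reducible points `1 ⊕ κ` with `κ ≠ 1`, there is no bound for the level of `κ`, and none of these `κ` or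
`κ⁻¹` is `χ ε ^ n` with `n ≥ 2`, or `χ ε` if `χ` is not trivial on the decomposition groups of the
primes in `S`. (2) If the trace of an irreducible even `V` is that of `τ (1 + χ ε ^ n)` modulo the
elements of absolute value at most `r`, then `B_{n, χ} / n` and `B_{n', χ⁻¹} / n'`, `n' ≡ -n`, times
explicit factors, have absolute value at most `r`. (3) For more than half of the weights, all even
representations with semisimple reduction `ω ^ j (1 ⊕ ω ^ n)` are reducible.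
-/

namespace Pool.Agent.Results.MP_b583a4_nt.EisensteinDivisibility

open Pool.Agent.AAP Pool.Agent.EDV

theorem result (p : ℕ) [Fact p.Prime] (hp : p ≠ 2) :
    (∀ (S : Finset ℕ), p ∈ S → ∀ {E : Type} [NormedField E] [IsUltrametricDist E]
        [CompleteSpace E] [NormedAlgebra ℚ_[p] E],
      {κ : Gam →* Eˣ | LimitS p S κ}.Finite ∧
      ∀ (κ : Gam →* Eˣ) (N n : ℕ) [NeZero N] (χ : (ZMod N)ˣ →* Eˣ), LimitS p S κ →
        (2 ≤ n ∨ (n = 1 ∧ ∀ ℓ ∈ S, ℓ.Prime → ∃ x : E, DVal p N 0 χ ℓ x ∧ x ≠ 1)) →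
        ¬ Geo p N n χ κ ∧ ¬ Geo p N n χ κ⁻¹) ∧
    (∀ (N n n' k : ℕ) [NeZero N], p ∣ N → 1 ≤ k → 1 ≤ n → 1 ≤ n' →
      (p - 1) * p ^ (k - 1) ∣ n + n' →
      ∀ {E : Type} [NormedField E] [IsUltrametricDist E] [CompleteSpace E] [NormedAlgebra ℚ_[p] E]
        (r : ℝ) (χ : (ZMod N)ˣ →* Eˣ) (V : Gam →* GL2 E) (τ : Gam →* Eˣ),
        ‖(p : E)‖ ^ k ≤ r → r < 1 → Continuous V → Even2 V → ¬ Line V → Level p N τ →
        (∀ (g : Gam) (a : (ZMod N)ˣ) (b : ℕ), Acts N g (a : ZMod N).val → Acts (p ^ k) g b →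
          ‖trc V g - τ g * (1 + χ a * (b : E) ^ n)‖ ≤ r) →
        ∀ (S : Finset ℕ) (x : ℕ → E) (z : E),
          (GVal p N n χ z → (∀ ℓ ∈ S, DVal p N (n - 1) χ ℓ (x ℓ)) → LocalOut p N n χ S V →
            ‖z - 1‖ ^ 3 * (∏ ℓ ∈ S, ‖x ℓ - 1‖) * ‖genBern N n χ‖ ≤ r * ‖(n : E)‖) ∧
          (GVal p N n' χ⁻¹ z → (∀ ℓ ∈ S, DVal p N (n' - 1) χ⁻¹ ℓ (x ℓ)) →
            LocalOut p N n' χ⁻¹ S V →
            ‖z - 1‖ ^ 3 * (∏ ℓ ∈ S, ‖x ℓ - 1‖) * ‖genBern N n' χ⁻¹‖ ≤ r * ‖(n' : E)‖)) ∧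
    (5 ≤ p → ∃ S : Finset ℕ, p < 4 * S.card + 3 ∧
      ∀ n ∈ S, Even n ∧ 2 ≤ n ∧ n + 3 ≤ p ∧ AllReducible p n) := by
  refine ⟨?_, ?_, halfMain p⟩
  · intro S hpS E _ _ _ _
    refine ⟨limitS_finite p hp S hpS, ?_⟩
    intro κ N n _ χ hκ hn
    rcases hn with hn | ⟨rfl, hD⟩
    · exact limitS_not_geo p hp S hpS hκ N n hn χ
    · exact limitS_not_geo_one p hp S hpS hκ N χ hD
  · intro N n n' k _ hpN hk hn hn' hnn E _ _ _ _ r χ V τ hpr hr1 hV heven hline hτ htr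
    exact div_main3 p N n n' k hp hpN hk hn hn' hnn hpr hr1 χ V hV heven hline τ hτ htr

end Pool.Agent.Results.MP_b583a4_nt.EisensteinDivisibility
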