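import Pool.Agent.FR2.Fin

/-!
# Two-dimensional Galois representations of level `S^∞`: all but finitely many residual types

Let `p` be any prime and `S` a finite set of primes not containing `p`. For all but finitely many
reducible residual types (up to twist) `ω ^ j ⊗ (α ⊕ β ω ^ n)`, with `α`, `β` characters whose
conductors have all their prime factors in `S`, every even two-dimensional `p`-adic representation
of the absolute Galois group of `ℚ` of this residual type is reducible, if it is tame at the primes
outside `S` where the relevant extension could ramify. No condition is imposed at `p`.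

For `p = 2` evenness may be replaced by reducibility on a decomposition group at `2`: the odd
representations which are ordinary at `2` are included.
-/

namespace Pool.Agent.Results.MP_b583a4_nt.FiniteReductions

open Pool.Agent.AAP Pool.Agent.FR2

theorem result (p : ℕ) [Fact p.Prime] (S : Finset ℕ) (hS : ∀ l ∈ S, l.Prime)
    (hpS : p ∉ S) : ∃ N₀ : ℕ, 0 < N₀ ∧ ∀ (N n : ℕ) [NeZero N],
      (∀ l : ℕ, l.Prime → l ∣ N → l ∈ S) → 1 ≤ n → n < p →
      ∀ {E : Type} [NormedField E] [IsUltrametricDist E] [CompleteSpace E] [NormedAlgebra ℚ_[p] E]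
        (V : Gam →* GL2 E) (α β : (ZMod N)ˣ →* Eˣ) (j : ℕ), Continuous V →
        (Even2 V ∨ p = 2 ∧ RedAt p V) → SumType p n N α β j V →
        (∀ (ℓ : ℕ) (a : (ZMod N)ˣ), ℓ.Prime → ℓ ≠ p → ℓ ∉ S → (a : ZMod N) = ℓ →
          Equ (β a * (ℓ : E) ^ (n - 1)) (α a : E) → TameAt p ℓ V) →
        ¬ Line V → ∀ r : (ZMod N)ˣ, (r : ZMod N).val ≡ 1 [MOD N.gcd N₀] →
          Equ (β r : E) (α r) :=
  Pool.Agent.FR2.fin_all p S hS hpS

end Pool.Agent.Results.MP_b583a4_nt.FiniteReductions
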