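import Pool.Agent.PMD.Final

/-!
# MP_b583a4_nt: pro-modularity is a property of the common kernel

`V` is a strongly irreducible two-dimensional representation of a profinite group `G` over a finite extension `E` of
`ℚ_p`, `p` odd, and `(r i)` is an arbitrary, possibly infinite, family of two-dimensional representations over finite
extensions `K i` of `ℚ_p` (for example those of all eigenforms).  The following are equivalent:
`V` is a point of the adjoint Hecke algebra of the family; the character of `End V` is a uniform limit of sums of linear
images of the characters of the `End (r i)`; the common kernel of the `r i` acts by scalars on `V` on some open subgroup;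
`V` is not independent of the family.  In particular a `V` which has nonzero trace at an element (such as complex
conjugation) at which all `r i` have trace zero is independent of the whole family.
The definitions are in `Pool/Agent/PMD/Stmt.lean`.
-/

set_option autoImplicit false
open Pool.Agent.PMD.Stmt

namespace Pool.Agent.Results.MP_b583a4_nt.ProModular

theorem result (p : ℕ) [hp : Fact p.Prime] (hp2 : p ≠ 2)
    -- the coefficient field, a finite extension of `ℚ_p`
    {E : Type*} [NontriviallyNormedField E] [IsUltrametricDist E] [NormedAlgebra ℚ_[p] E]
    [FiniteDimensional ℚ_[p] E]
    -- a profinite group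
    {G : Type*} [Group G] [TopologicalSpace G] [IsTopologicalGroup G] [CompactSpace G]
    [TotallyDisconnectedSpace G]
    -- a strongly irreducible representation
    (V : G →* GL (Fin 2) E) (hV : Cont V) (hirr : StronglyIrreducible V)
    -- an arbitrary family of two-dimensional representations over finite extensions of `ℚ_p`
    {I : Type*} {K : I → Type*} [∀ i, NontriviallyNormedField (K i)] [∀ i, IsUltrametricDist (K i)]
    [∀ i, NormedAlgebra ℚ_[p] (K i)] [∀ i, FiniteDimensional ℚ_[p] (K i)]
    (r : ∀ i, G →* GL (Fin 2) (K i)) (hr : ∀ i, Cont (r i)) :
    [IsPoint V r, IsLimit p V r, ScalarKernel V r, ¬ Indep V r].TFAE ∧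
      (TraceSeparated V r → Indep V r) :=
  final p hp2 V hV hirr r hr

end Pool.Agent.Results.MP_b583a4_nt.ProModular
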